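import Pool.Agent.H58.HN.TargetsA

/-!
# AB: an entry which is a unit (MP_6ab439_lc, Hell-Nesetril)
-/

set_option autoImplicit false

namespace Pool.Agent.H20.HN.AB

open Pool.Agent.H58.HN

private lemma exists_ne {A : Type} [Ring A] (f : A → A) (s : Multiset A)
    (h : (s.map f).sum ≠ 0) : ∃ u ∈ s, f u ≠ 0 := by
  by_contra hcon
  apply h
  apply Multiset.sum_eq_zero
  intro x hx
  obtain ⟨u, hu, rfl⟩ := Multiset.mem_map.1 hx
  by_contra hne
  exact hcon ⟨u, hu, hne⟩

theorem pf_AB (hA : T_AA) : T_AB := by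
  intro A _ _ _ V Φ S e he s hs hsum
  obtain ⟨hfin, hmul, -, hpow⟩ := hA A V Φ S
  set En : Set A := {a : A | ∃ s ∈ V, a ∈ s} with hEn
  have hmulE : ∀ a b, a ∈ En → b ∈ En → a * b ∈ En := hmul
  have hone : (1 : A) ∈ En := ⟨{1}, S.one, Multiset.mem_singleton_self 1⟩
  have heE : e ∈ En := he.mem
  have hsE : ∀ u ∈ s, u ∈ En := fun u hu => ⟨s, hs, hu⟩
  -- the minimal choice
  let g : A → ℕ := fun a => ((fun y => a * y) '' En).ncard
  obtain ⟨a, ⟨haE, ha0, hae⟩, hmin⟩ : ∃ a, (a ∈ En ∧ a ≠ 0 ∧ a * e = a) ∧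
      ∀ b, (b ∈ En ∧ b ≠ 0 ∧ b * e = b) → g a ≤ g b := by
    have hne : {a | a ∈ En ∧ a ≠ 0 ∧ a * e = a}.Nonempty := ⟨e, heE, he.ne, he.idem⟩
    obtain ⟨a, ha, hm⟩ := Set.exists_min_image {a | a ∈ En ∧ a ≠ 0 ∧ a * e = a} g
      (hfin.subset fun a ha => ha.1) hne
    exact ⟨a, ha, hm⟩
  have hsumA : (s.map (fun u => a * (e * u * e))).sum = a := by
    have h1 : (s.map (fun u => a * (e * u * e))).sum = a * (e * s.sum * e) := by
      rw [Multiset.sum_map_mul_left, Multiset.sum_map_mul_right, Multiset.sum_map_mul_left,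
        Multiset.map_id']
    rw [h1, hsum, mul_one, he.idem, hae]
  obtain ⟨u, hu, hne⟩ := exists_ne (fun u => a * (e * u * e)) s (by rw [hsumA]; exact ha0)
  have hxE : e * u * e ∈ En := hmulE _ _ (hmulE _ _ heE (hsE u hu)) heE
  have hxe : e * u * e * e = e * u * e := by rw [mul_assoc, he.idem]
  have hex : e * (e * u * e) = e * u * e := by rw [← mul_assoc, ← mul_assoc, he.idem]
  set x : A := e * u * e with hx
  have hsub : (fun y => a * x * y) '' En ⊆ (fun y => a * y) '' En := by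
    rintro _ ⟨y, hy, rfl⟩
    exact ⟨x * y, hmulE _ _ hxE hy, by simp only [mul_assoc]⟩
  have hle := hmin (a * x) ⟨hmulE _ _ haE hxE, hne, by rw [mul_assoc, hxe]⟩
  have heq := Set.eq_of_subset_of_ncard_le hsub hle (hfin.image _)
  have ha1 : a ∈ (fun y => a * y) '' En := ⟨1, hone, mul_one a⟩
  rw [← heq] at ha1
  obtain ⟨y, hyE, hay⟩ := ha1
  have hay' : a * x * y = a := hay
  set w : A := x * (y * e) with hw
  have hwE : w ∈ En := hmulE _ _ hxE (hmulE _ _ hyE heE)
  have hew : e * w = w := by rw [hw, ← mul_assoc, hex]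
  have hwe : w * e = w := by
    calc w * e = x * (y * (e * e)) := by simp only [hw, mul_assoc]
      _ = w := by rw [he.idem]
  have haw : a * w = a := by
    rw [hw]
    calc a * (x * (y * e)) = a * x * y * e := by simp only [mul_assoc]
      _ = a := by rw [hay', hae]
  have hawm : ∀ m : ℕ, a * w ^ m = a := by
    intro m
    induction m with
    | zero => simp
    | succ m ih => rw [pow_succ', ← mul_assoc, haw, ih]
  obtain ⟨n, hn, hw0 | hwn⟩ := hpow e he w hwE hew hwe
  · exfalso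
    have := hawm n
    rw [hw0, mul_zero] at this
    exact ha0 this.symm
  -- a right inverse of `x`
  obtain ⟨z, hz⟩ : ∃ z, x * z = e := by
    obtain ⟨m, rfl⟩ : ∃ m, n = m + 1 := ⟨n - 1, by omega⟩
    refine ⟨y * e * w ^ m, ?_⟩
    calc x * (y * e * w ^ m) = x * (y * e) * w ^ m := (mul_assoc _ _ _).symm
      _ = w ^ (m + 1) := by rw [pow_succ', ← hw]
      _ = e := hwn
  have hxm : ∀ m : ℕ, ∃ v, x ^ m * v = e := by
    intro m
    induction m with
    | zero => exact ⟨e, by simp⟩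
    | succ m ih =>
      obtain ⟨v, hv⟩ := ih
      refine ⟨v * z, ?_⟩
      calc x ^ (m + 1) * (v * z) = x * (x ^ m * v) * z := by
            rw [pow_succ']; simp only [mul_assoc]
        _ = x * e * z := by rw [hv]
        _ = e := by rw [hxe, hz]
  obtain ⟨k, hk, hx0 | hxk⟩ := hpow e he x hxE hex hxe
  · exfalso
    obtain ⟨v, hv⟩ := hxm k
    rw [hx0, zero_mul] at hv
    exact he.ne hv.symm
  · exact ⟨u, hu, k, hk, hxk⟩

end Pool.Agent.H20.HN.AB
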