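import Pool.Agent.H58.HN.TargetsA

/-!
# AF: the choice of one entry (MP_6ab439_lc, Hell-Nesetril)
-/

set_option autoImplicit false

namespace Pool.Agent.H20.HN.AF

open Pool.Agent.H58.HN

/-- the vector `c * s` -/
private lemma smul_mem {A : Type} [Ring A] {V : Set (Multiset A)} {Φ : Set A} (S : Sys A V Φ)
    {c : A} (hc : {c} ∈ V) {s : Multiset A} (hs : s ∈ V) : s.map (fun b => c * b) ∈ V := by
  have h := S.sub c 0 s (by simpa using hc) hs
  simpa using h

private lemma zero_sum {A : Type} [Ring A] (e : A) (s : Multiset A) (h : ∀ v ∈ s, e * v = 0) :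
    e * s.sum = 0 := by
  induction s using Multiset.induction_on with
  | empty => simp
  | cons a s ih =>
    rw [Multiset.sum_cons, mul_add, h a (Multiset.mem_cons_self a s), zero_add]
    exact ih fun v hv => h v (Multiset.mem_cons_of_mem hv)

theorem pf_AF (hA : T_AA) (hB : T_AB) (hD : T_AD) (hE : T_AE) : T_AF := by
  intro A _ _ _ V Φ S
  obtain ⟨-, -, ⟨e, he⟩, -⟩ := hA A V Φ S
  -- the structure of one vector
  have key : ∀ s ∈ V, ∀ c : A, c * s.sum = 1 → {c} ∈ V →
      ∃ (a : A) (t : Multiset A), s = a ::ₘ t ∧ e * (c * a) = e ∧ ∀ b ∈ t, e * (c * b) = 0 := by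
    intro s hs c hc hcV
    have hsV := smul_mem S hcV hs
    have hsum : (s.map (fun b => c * b)).sum = 1 := by
      rw [Multiset.sum_map_mul_left, Multiset.map_id', hc]
    obtain ⟨u, hu, n, hn, hun⟩ := hB A V Φ S e he _ hsV hsum
    obtain ⟨a, ha, rfl⟩ := Multiset.mem_map.1 hu
    obtain ⟨t, rfl⟩ := Multiset.exists_cons_of_mem ha
    have hsV' : (c * a) ::ₘ t.map (fun b => c * b) ∈ V := by
      simpa using hsV
    have h0 := hD A V Φ S e he (c * a) (t.map (fun b => c * b)) hsV' n hn hun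
    have hsum' : c * a + (t.map (fun b => c * b)).sum = 1 := by
      simpa using hsum
    have hz := zero_sum e _ h0
    refine ⟨a, t, rfl, ?_, fun b hb => h0 (c * b) (Multiset.mem_map_of_mem (fun b => c * b) hb)⟩
    calc e * (c * a) = e * (c * a) + e * (t.map (fun b => c * b)).sum := by rw [hz, add_zero]
      _ = e * (c * a + (t.map (fun b => c * b)).sum) := (mul_add _ _ _).symm
      _ = e := by rw [hsum', mul_one]
  have uniq : ∀ b c c' : A, c * b = 1 → b * c = 1 → c' * b = 1 → c = c' := by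
    intro b c c' _ h2 h3
    calc c = 1 * c := (one_mul c).symm
      _ = c' * b * c := by rw [h3]
      _ = c' * (b * c) := mul_assoc _ _ _
      _ = c' := by rw [h2, mul_one]
  refine ⟨fun b a => ∃ c, c * b = 1 ∧ b * c = 1 ∧ e * (c * a) ≠ 0, ?_, ?_⟩
  · intro s hs
    obtain ⟨c, hc1, hc2, hcV⟩ := S.inv s hs
    obtain ⟨a, t, hst, ha, ht⟩ := key s hs c hc1 hcV
    refine ⟨a, t, hst, ⟨c, hc1, hc2, ?_⟩, ?_⟩
    · rw [ha]
      exact he.ne
    · rintro b hb ⟨c', hc1', hc2', hne⟩
      have hcc : c' = c := uniq s.sum c' c hc1' hc2' hc1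
      rw [hcc] at hne
      exact hne (ht b hb)
  · rintro s hs t ht a has hat ⟨c₀, hc1', hc2', hne⟩
    obtain ⟨c, hc1, hc2, hcV⟩ := S.inv s hs
    have hcc : c₀ = c := uniq s.sum c₀ c hc1' hc2' hc1
    rw [hcc] at hne
    obtain ⟨a', s', hst, ha', hs'⟩ := key s hs c hc1 hcV
    have hea : e * (c * a) = e := by
      rw [hst, Multiset.mem_cons] at has
      rcases has with rfl | h
      · exact ha'
      · exact absurd (hs' a h) hne
    obtain ⟨d, hd1, hd2, hdV⟩ := S.inv t ht
    have htV := smul_mem S hcV ht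
    have h1 := hE A V Φ S e (c * a) _ htV (Multiset.mem_map_of_mem (fun b => c * b) hat) hea
    rw [Multiset.sum_map_mul_left, Multiset.map_id'] at h1
    have h2 : e * c = e * d := by
      calc e * c = e * c * (t.sum * d) := by rw [hd2, mul_one]
        _ = e * (c * t.sum) * d := by simp only [mul_assoc]
        _ = e * d := by rw [h1]
    refine ⟨d, hd1, hd2, ?_⟩
    rw [← mul_assoc, ← h2, mul_assoc, hea]
    exact he.ne

end Pool.Agent.H20.HN.AF
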