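import Pool.Agent.H58.HN.TargetsT

/-!
# TK: monotone maps of two variables carry chain maps (MP_6ab439_lc, Hell-Nesetril)
-/

set_option autoImplicit false

noncomputable section

namespace Pool.Agent.H20.HN.TK

open Classical
open scoped TensorProduct
open Pool.Agent.H58.HN

variable {P Q : Type} [PartialOrder P] [PartialOrder Q]

private lemma exists_max (s : Ch P) (h : s.1.Nonempty) : ∃ m ∈ s.1, ∀ y ∈ s.1, y ≤ m := by
  obtain ⟨m, hm⟩ := s.1.exists_maximal h
  refine ⟨m, hm.1, fun y hy => ?_⟩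
  rcases s.2.total (Finset.mem_coe.2 hy) (Finset.mem_coe.2 hm.1) with h1 | h1
  · exact h1
  · exact hm.2 hy h1

private lemma bd_e (s : Ch P) : bd (e s) = ∑ x ∈ s.1, sg s x • e (er s x) := by
  simp [bd, e, Finsupp.linearCombination_single]

private lemma bp_e (s : Ch P) : bp (e s) = if 2 ≤ s.1.card then bd (e s) else 0 := by
  simp [bp, e, Finsupp.linearCombination_single]

private lemma om_e (s : Ch P) : om (e s) = (-1 : ℚ) ^ (s.1.card + 1) • e s := by
  simp [om, e, Finsupp.linearCombination_single]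

private lemma mem_Sp {A : Ch P → Prop} {s : Ch P} (h : A s) : e s ∈ Sp A := by
  unfold e Sp
  exact Finsupp.single_mem_supported ℚ 1 h

private lemma Sp_mono {A B : Ch P → Prop} (h : ∀ s, A s → B s) : Sp A ≤ Sp B :=
  Finsupp.supported_mono fun s hs => h s hs

private lemma pt_inj {x y : P} (h : (pt x : Ch P) = pt y) : x = y := by
  have : (pt x : Ch P).1 = (pt y).1 := by rw [h]
  exact Finset.singleton_injective this

private lemma eq_pt {s : Ch P} (h : s.1.card = 1) : ∃ x, s = pt x := by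
  obtain ⟨x, hx⟩ := Finset.card_eq_one.1 h
  exact ⟨x, Subtype.ext hx⟩

private lemma bd_pt (x : P) : bd (e (pt x)) = e (nil : Ch P) := by
  rw [bd_e]
  have h1 : (pt x : Ch P).1 = {x} := rfl
  rw [h1, Finset.sum_singleton]
  have h2 : sg (pt x) x = 1 := by
    unfold sg
    rw [h1, Finset.filter_eq_empty_iff.2 (by simp)]
    simp
  have h3 : er (pt x) x = nil := by
    apply Subtype.ext
    change ({x} : Finset P).erase x = ∅
    simp
  rw [h2, h3, one_smul]

/-- the sum of the coefficients of the points -/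
private def al (P : Type) [PartialOrder P] : CG P →ₗ[ℚ] ℚ :=
  Finsupp.linearCombination ℚ fun s : Ch P => if s.1.card = 1 then (1 : ℚ) else 0

private lemma al_e (s : Ch P) : al P (e s) = if s.1.card = 1 then 1 else 0 := by
  simp [al, e, Finsupp.linearCombination_single]

private lemma card_er (s : Ch P) {x : P} (hx : x ∈ s.1) : (er s x).1.card + 1 = s.1.card := by
  unfold er
  exact Finset.card_erase_add_one hx

private lemma al_bp (hA : ∀ c : CG P, bd (bd c) = 0) (s : Ch P) : al P (bp (e s)) = 0 := by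
  rw [bp_e]
  split_ifs with h
  · by_cases h2 : s.1.card = 2
    · -- use `bd (bd (e s)) = 0`
      have h1 : bd (bd (e s)) = al P (bd (e s)) • e (nil : Ch P) := by
        rw [bd_e, map_sum, map_sum, Finset.sum_smul]
        refine Finset.sum_congr rfl fun x hx => ?_
        have hc := card_er s hx
        obtain ⟨y, hy⟩ := eq_pt (s := er s x) (by omega)
        rw [map_smul, map_smul, hy, bd_pt, al_e]
        have : (pt y : Ch P).1.card = 1 := Finset.card_singleton y
        rw [if_pos this, smul_eq_mul, mul_one]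
      rw [hA] at h1
      have h3 := DFunLike.congr_fun h1 (nil : Ch P)
      have h4 : (e (nil : Ch P)) nil = 1 := by
        unfold e
        exact Finsupp.single_eq_same
      rw [Finsupp.smul_apply, Finsupp.zero_apply, h4, smul_eq_mul, mul_one] at h3
      exact h3.symm
    · rw [bd_e, map_sum]
      apply Finset.sum_eq_zero
      intro x hx
      have hc := card_er s hx
      rw [map_smul, al_e, if_neg (by omega), smul_zero]
  · exact map_zero _

theorem pf_TK (hA : T_TA) (hB : T_TB) (hC : T_TC) (hI : T_TI) : T_TK2 := by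
  intro P Q _ _ F
  obtain ⟨hD, hsp⟩ := hI P
  let b : Module.Basis (Ch P × Ch P) ℚ (CC P) :=
    Finsupp.basisSingleOne.tensorProduct Finsupp.basisSingleOne
  have hb : ∀ s t : Ch P, b (s, t) = e s ⊗ₜ[ℚ] e t := by
    intro s t
    simp only [b, Module.Basis.tensorProduct_apply, Finsupp.coe_basisSingleOne]
    rfl
  let d : Ch P × Ch P → ℕ := fun p =>
    if p.1.1.Nonempty ∧ p.2.1.Nonempty then p.1.1.card + p.2.1.card else 0
  let v : Ch P × Ch P → CG Q := fun p =>
    if h : ∃ z : P × P, p.1 = pt z.1 ∧ p.2 = pt z.2 then e (pt (F h.choose)) else 0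
  have hv : ∀ x y : P, v (pt x, pt y) = e (pt (F (x, y))) := by
    intro x y
    have h : ∃ z : P × P, (pt x : Ch P) = pt z.1 ∧ (pt y : Ch P) = pt z.2 := ⟨(x, y), rfl, rfl⟩
    have h1 := pt_inj h.choose_spec.1
    have h2 := pt_inj h.choose_spec.2
    have h3 : h.choose = (x, y) := Prod.ext h1.symm h2.symm
    simp only [v]
    rw [dif_pos h, h3]
  let f₀ : CC P →ₗ[ℚ] CG Q := b.constr ℚ v
  have hf₀ : ∀ p, f₀ (b p) = v p := fun p => b.constr_basis ℚ v p
  let K : Ch P × Ch P → Submodule ℚ (CG Q) := fun p =>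
    if p.1.1.Nonempty ∧ p.2.1.Nonempty then
      Sp (fun w : Ch Q => w.1.card + 1 = p.1.1.card + p.2.1.card ∧
        ∀ y ∈ w.1, ∃ a ∈ p.1.1, ∃ b ∈ p.2.1, y ≤ F (a, b)) else ⊤
  let L : Ch P × Ch P → Submodule ℚ (CG Q) := fun p =>
    Sp (fun w : Ch Q => w.1.card + 2 = p.1.1.card + p.2.1.card ∧
        ∀ y ∈ w.1, ∃ a ∈ p.1.1, ∃ b ∈ p.2.1, y ≤ F (a, b))
  have hd : ∀ p, 2 < d p → (p.1.1.Nonempty ∧ p.2.1.Nonempty) ∧ d p = p.1.1.card + p.2.1.card := by
    intro p hp
    simp only [d] at hp ⊢
    split_ifs at hp ⊢ with h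
    · exact ⟨h, rfl⟩
    · omega
  -- the augmentation
  let AA : CC P →ₗ[ℚ] ℚ := LinearMap.mul' ℚ ℚ ∘ₗ TensorProduct.map (al P) (al P)
  have hAA : ∀ u w : CG P, AA (u ⊗ₜ[ℚ] w) = al P u * al P w := by
    intro u w
    simp [AA]
  have haug : ∀ c : CC P, bd (f₀ c) = AA c • e (nil : Ch Q) := by
    have h1 : bd ∘ₗ f₀ = AA.smulRight (e (nil : Ch Q)) := by
      apply b.ext
      rintro ⟨s, t⟩
      rw [LinearMap.comp_apply, LinearMap.smulRight_apply, hf₀, hb, hAA, al_e, al_e]
      by_cases h : ∃ z : P × P, s = pt z.1 ∧ t = pt z.2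
      · obtain ⟨⟨x, y⟩, rfl, rfl⟩ := h
        have e1 : (pt x : Ch P).1.card = 1 := Finset.card_singleton x
        have e2 : (pt y : Ch P).1.card = 1 := Finset.card_singleton y
        rw [hv, bd_pt, if_pos e1, if_pos e2, mul_one, one_smul]
      · have hz : v (s, t) = 0 := by
          simp only [v]
          rw [dif_neg h]
        rw [hz, map_zero]
        by_cases h1 : s.1.card = 1
        · by_cases h2 : t.1.card = 1
          · obtain ⟨x, hx⟩ := eq_pt h1
            obtain ⟨y, hy⟩ := eq_pt h2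
            exact absurd ⟨(x, y), hx, hy⟩ h
          · rw [if_neg h2, mul_zero, zero_smul]
        · rw [if_neg h1, zero_mul, zero_smul]
    intro c
    have := LinearMap.congr_fun h1 c
    simpa using this
  obtain ⟨f, hf1, hf2, hf3⟩ := hC (Ch P × Ch P) (CC P) (CG Q) b d 2 D2 bd 0 1 f₀ K L
    (by
      rintro ⟨s, t⟩ hp
      obtain ⟨⟨hs, ht⟩, hdp⟩ := hd _ hp
      rw [hb]
      refine Submodule.span_mono ?_ (hsp s t hs ht)
      rintro _ ⟨s', t', rfl, hs', ht', hss, htt, hc⟩
      refine ⟨(s', t'), (hb s' t').symm, ?_, ?_⟩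
      · rw [hdp]
        simp only [d]
        rw [if_pos ⟨hs', ht'⟩]
        exact hc
      · simp only [K, L]
        rw [if_pos ⟨hs', ht'⟩]
        refine Sp_mono ?_
        rintro w ⟨hw1, hw2⟩
        refine ⟨by omega, fun y hy => ?_⟩
        obtain ⟨a, ha, c, hc', hyF⟩ := hw2 y hy
        exact ⟨a, hss ha, c, htt hc', hyF⟩)
    (by
      intro p _
      rw [LinearMap.zero_apply]
      exact Submodule.zero_mem _)
    (by
      intro p _
      refine ⟨hD _, ?_⟩
      simp)
    (by
      rintro ⟨s, t⟩ hp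
      rw [LinearMap.zero_apply, zero_add, one_smul, haug, hb]
      have h1 : AA (D2 (e s ⊗ₜ[ℚ] e t)) = 0 := by
        simp only [D2, LinearMap.add_apply, TensorProduct.map_tmul, LinearMap.id_apply, map_add,
          hAA]
        rw [al_bp (hA P), al_bp (hA P)]
        simp
      rw [h1, zero_smul])
    (by
      rintro ⟨s, t⟩ hp c hc hbc
      obtain ⟨⟨hs, ht⟩, hdp⟩ := hd _ hp
      obtain ⟨x, hx, hxm⟩ := exists_max s hs
      obtain ⟨y, hy, hym⟩ := exists_max t ht
      have hc' : c ∈ Sp (fun w : Ch Q => w.1.card = s.1.card + t.1.card - 2 ∧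
          ∀ z ∈ w.1, z ≤ F (x, y)) := by
        refine Sp_mono ?_ hc
        rintro w ⟨hw1, hw2⟩
        refine ⟨by simp only at hw1; omega, fun z hz => ?_⟩
        obtain ⟨a, ha, b', hb', hz'⟩ := hw2 z hz
        exact hz'.trans (F.monotone ⟨hxm a ha, hym b' hb'⟩)
      obtain ⟨z, hz, hbz⟩ := hB Q (F (x, y)) (s.1.card + t.1.card - 2) c hc' hbc
      refine ⟨z, ?_, hbz⟩
      simp only [K]
      rw [if_pos ⟨hs, ht⟩]
      refine Sp_mono ?_ hz
      rintro w ⟨hw1, hw2⟩
      rw [hdp] at hp
      exact ⟨by simp only at hp; omega, fun u hu => ⟨x, hx, y, hy, hw2 u hu⟩⟩)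
    (by
      rintro ⟨s, t⟩ hp
      simp only [K]
      split_ifs with h
      · simp only [d] at hp
        rw [if_pos h] at hp
        have h1 := Finset.card_pos.2 h.1
        have h2 := Finset.card_pos.2 h.2
        obtain ⟨x, rfl⟩ := eq_pt (s := s) (by omega)
        obtain ⟨y, rfl⟩ := eq_pt (s := t) (by omega)
        rw [hf₀, hv]
        refine mem_Sp ⟨rfl, fun z hz => ⟨x, ?_, y, ?_, ?_⟩⟩
        · exact Finset.mem_singleton_self x
        · exact Finset.mem_singleton_self y
        · have : z = F (x, y) := Finset.mem_singleton.1 hz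
          rw [this]
      · exact Submodule.mem_top)
  refine ⟨f, ⟨?_, ?_, ?_⟩⟩
  · intro x y
    have h1 := hf1 (pt x, pt y) (by
      simp only [d]
      split_ifs
      · exact le_of_eq rfl
      · exact Nat.zero_le _)
    rw [hb, ← hb, hf₀, hv] at h1
    rw [← hb]
    exact h1
  · intro s t hs ht
    have h1 := hf2 (s, t)
    simp only [K] at h1
    rw [if_pos ⟨hs, ht⟩, hb] at h1
    exact h1
  · intro s t hs ht hst
    have h1 := hf3 (s, t) (by
      simp only [d]
      rw [if_pos ⟨hs, ht⟩]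
      exact hst)
    rw [hb, LinearMap.zero_apply, zero_add, one_smul] at h1
    exact h1

end Pool.Agent.H20.HN.TK
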